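import Mathlib
import Pool.Agent.H31.Cups

set_option autoImplicit false
open Filter Topology

namespace Pool.Agent.Results.MP_b85c6a_co.Lower

/-- The Hamming graph H(d,n). -/
def hamming (d n : ℕ) : SimpleGraph (Fin d → Fin n) where
  Adj x y := hammingDist x y = 1
  symm := ⟨fun x y h => by rwa [hammingDist_comm]⟩
  loopless := ⟨fun x h => by simp at h⟩

/-- A sequence of positions that stays put or moves to a neighbour at each step. -/
def IsPlay {V : Type} (G : SimpleGraph V) (p : ℕ → V) : Prop :=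
  ∀ t, p (t + 1) = p t ∨ G.Adj (p t) (p (t + 1))

/-- k cops have a schedule c such that every robber play r is at distance at most l from some cop
after some robber move (c t, r t) or after some cop move (c (t+1), r t). -/
def CopsSee {V : Type} (G : SimpleGraph V) (l k : ℕ) : Prop :=
  ∃ c : ℕ → Fin k → V, (∀ j, IsPlay G fun t => c t j) ∧ ∀ r, IsPlay G r →
    ∃ t j, G.edist (c t j) (r t) ≤ l ∨ G.edist (c (t + 1) j) (r t) ≤ l

noncomputable def searchNum {V : Type} (G : SimpleGraph V) (l : ℕ) : ℕ := sInf {k | CopsSee G l k}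

theorem far (d n : ℕ) (hd : 1 ≤ d) (x y : Fin d → Fin n) (h : ∀ i, x i ≠ y i) :
    ¬ (hamming d n).edist x y ≤ (d - 1 : ℕ) := by
  intro h1
  obtain ⟨p, hp⟩ := SimpleGraph.exists_walk_of_edist_ne_top (ne_top_of_le_ne_top (by simp) h1)
  have h2 : ∀ {x y} (p : (hamming d n).Walk x y), hammingDist x y ≤ p.length := by
    intro x y p
    induction p with
    | nil => simp
    | @cons a b c h p ih =>
      have h3 := hammingDist_triangle a b c
      have h4 : hammingDist a b = 1 := h
      rw [SimpleGraph.Walk.length_cons]; omega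
  have h3 : hammingDist x y = d := by simp [hammingDist, h]
  have h4 := h2 p
  rw [← hp, Nat.cast_le] at h1
  omega

theorem lower (d n k : ℕ) (hd : 1 ≤ d) (hn0 : 1 ≤ n) (h : CopsSee (hamming d n) (d - 1) k) :
    n < 3 * k := by
  by_contra hn
  obtain ⟨c, h1, h2⟩ := h
  obtain ⟨r, h3, h4⟩ := H31.Cups.evade (not_lt.mp hn) hn0 c fun t j => by
    rcases h1 j t with e | e
    · simp only at e; simp [e]
    · exact le_of_eq e
  obtain ⟨t, j, h5⟩ := h2 r fun t => by
    rcases Nat.le_one_iff_eq_zero_or_eq_one.mp (h3 t) with e | e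
    · exact Or.inl (hammingDist_eq_zero.mp e).symm
    · exact Or.inr e
  exact h5.elim (far d n hd _ _ fun i => (h4 t j i).1) (far d n hd _ _ fun i => (h4 t j i).2)

theorem result : (∀ d n : ℕ, 1 ≤ d → 1 ≤ n → n < 3 * searchNum (hamming d n) (d - 1)) ∧
    ∀ d : ℕ, 3 ≤ d → ¬ Tendsto
      (fun n : ℕ => (searchNum (hamming d n) (d - 1) : ℝ) * (d + 1) / n) atTop (𝓝 1) := by
  have main : ∀ d n : ℕ, 1 ≤ d → 1 ≤ n → n < 3 * searchNum (hamming d n) (d - 1) := by
    intro d n hd hn
    refine lower d n _ hd hn (Nat.sInf_mem (s := {k | CopsSee (hamming d n) (d - 1) k})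
      ⟨_, fun _ => (Fintype.equivFin (Fin d → Fin n)).symm, fun j t => Or.inl rfl,
        fun r _ => ⟨0, Fintype.equivFin _ (r 0), Or.inl (by simp)⟩⟩)
  refine ⟨main, fun d hd h => ?_⟩
  obtain ⟨n, h1, h2⟩ := (((tendsto_order.mp h).2 (4 / 3) (by norm_num)).and
    (eventually_ge_atTop 1)).exists
  have h3 : (n : ℝ) < 3 * searchNum (hamming d n) (d - 1) := by
    exact_mod_cast main d n (by omega) h2
  have h4 : (3 : ℝ) ≤ d := by exact_mod_cast hd
  have h5 : (1 : ℝ) ≤ n := by exact_mod_cast h2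
  rw [div_lt_iff₀ (by linarith)] at h1
  nlinarith

end Pool.Agent.Results.MP_b85c6a_co.Lower
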